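import Pool.Agent.Lib.MP_6bc78b_nt.MS.L.Iface

/-! Project MS, Part IIIa, module ASY: elementary summatory functions. -/

set_option autoImplicit false

open Filter Topology ArithmeticFunction

namespace Pool.Agent.Lib.MP_6bc78b_nt.MS.L.H17

open Pool.Agent.Lib.MP_6bc78b_nt.MS Pool.Agent.Lib.MP_6bc78b_nt.MS.L

namespace Asy

lemma one_le_rpow {x : ℝ} (hx : 1 ≤ x) : 1 ≤ x ^ (19 / 20 : ℝ) :=
  Real.one_le_rpow hx (by norm_num)

lemma self_le_rpow {x : ℝ} (hx0 : 0 < x) (hx : x ≤ 1) : x ≤ x ^ (19 / 20 : ℝ) := by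
  conv_lhs => rw [← Real.rpow_one x]
  exact Real.rpow_le_rpow_of_exponent_ge hx0 hx (by norm_num)

lemma log_le_two_rpow {x : ℝ} (hx : 1 ≤ x) : Real.log x ≤ 2 * x ^ (19 / 20 : ℝ) := by
  have h := Real.log_le_rpow_div (by linarith : (0 : ℝ) ≤ x) (by norm_num : (0 : ℝ) < 19 / 20)
  have h1 := one_le_rpow hx
  rw [le_div_iff₀ (by norm_num)] at h
  nlinarith

lemma self_mul_log {x : ℝ} (hx0 : 0 < x) (hx : x < 1) :
    x * |Real.log x| ≤ 20 * x ^ (19 / 20 : ℝ) := by
  have h := Real.abs_log_mul_self_rpow_lt x (1 / 20) hx0 hx.le (by norm_num)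
  have h1 : x = x ^ (1 / 20 : ℝ) * x ^ (19 / 20 : ℝ) := by
    rw [← Real.rpow_add hx0]
    norm_num
  have h2 : 0 < x ^ (19 / 20 : ℝ) := Real.rpow_pos_of_pos hx0 _
  rw [abs_mul, abs_of_pos (Real.rpow_pos_of_pos hx0 _)] at h
  calc x * |Real.log x| = (x ^ (1 / 20 : ℝ) * x ^ (19 / 20 : ℝ)) * |Real.log x| := by rw [← h1]
    _ = (|Real.log x| * x ^ (1 / 20 : ℝ)) * x ^ (19 / 20 : ℝ) := by ring
    _ ≤ 20 * x ^ (19 / 20 : ℝ) := by
        refine mul_le_mul_of_nonneg_right ?_ h2.le
        have : (1 : ℝ) / (1 / 20) = 20 := by norm_num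
        rw [this] at h
        exact h.le

lemma floor_zero {x : ℝ} (hx : x < 1) : ⌊x⌋₊ = 0 := Nat.floor_eq_zero.2 hx

/-! ### one -/

lemma one_apply (n : ℕ) : one n = if n = 0 then 0 else 1 := by
  unfold one
  rw [ArithmeticFunction.natCoe_apply, ArithmeticFunction.zeta_apply]
  split_ifs <;> simp

lemma sum_one (N : ℕ) : ∑ n ∈ Finset.Icc 1 N, one n = N := by
  rw [Finset.sum_congr rfl fun n hn => by
    rw [one_apply, if_neg (by
      rw [Finset.mem_Icc] at hn
      omega)]]
  simp

theorem asy_one : SumAsy (fun n => one n) 1 21 := by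
  refine ⟨by simp, ⟨1, fun n => ?_⟩, fun x hx => ?_⟩
  · show |one n| ≤ 1 * (n : ℝ) ^ 2
    rw [one_apply]
    split_ifs with h
    · simp [h]
    · rw [abs_one, one_mul]
      have : (1 : ℝ) ≤ n := by exact_mod_cast Nat.one_le_iff_ne_zero.2 h
      nlinarith
  · show |∑ n ∈ Finset.Icc 1 ⌊x⌋₊, one n - x * (1 : Polynomial ℝ).eval (Real.log x)| ≤ _
    rw [sum_one, Polynomial.eval_one, mul_one]
    rcases lt_or_ge x 1 with h | h
    · rw [floor_zero h]
      have h1 := self_le_rpow hx h.le
      rw [Nat.cast_zero, zero_sub, abs_neg, abs_of_pos hx]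
      linarith
    · have h1 := one_le_rpow h
      have h2 := Nat.floor_le hx.le
      have h3 := Nat.lt_floor_add_one x
      rw [abs_le]
      constructor <;> linarith

/-! ### log -/

lemma sum_log (N : ℕ) : ∑ n ∈ Finset.Icc 1 N, Real.log n = Real.log (N.factorial : ℝ) := by
  induction N with
  | zero => simp
  | succ N ih =>
    rw [Finset.sum_Icc_succ_top (by omega), ih, Nat.factorial_succ, Nat.cast_mul,
      Real.log_mul (by positivity) (by positivity)]
    ring

lemma log_factorial_ge {N : ℕ} (hN : 1 ≤ N) :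
    (N : ℝ) * Real.log N - N ≤ Real.log (N.factorial : ℝ) := by
  have hN' : (0 : ℝ) < N := by exact_mod_cast hN
  have h := Real.pow_div_factorial_le_exp (N : ℝ) hN'.le N
  have h1 := Real.log_le_log (by positivity) h
  rw [Real.log_exp, Real.log_div (by positivity) (by positivity), Real.log_pow] at h1
  linarith

lemma log_factorial_le {N : ℕ} (hN : 1 ≤ N) :
    Real.log (N.factorial : ℝ) ≤ ((N : ℝ) + 1) * Real.log N - N + 1 := by
  induction N, hN using Nat.le_induction with
  | base => simp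
  | succ N hN ih =>
    have hN' : (0 : ℝ) < N := by exact_mod_cast hN
    rw [Nat.factorial_succ, Nat.cast_mul, Real.log_mul (by positivity) (by positivity)]
    push_cast
    have h1 : 1 ≤ ((N : ℝ) + 1) * (Real.log ((N : ℝ) + 1) - Real.log N) := by
      rw [← Real.log_div (by positivity) (by positivity)]
      have h2 := Real.one_sub_inv_le_log_of_pos (show (0 : ℝ) < ((N : ℝ) + 1) / N by positivity)
      have h3 : 1 - (((N : ℝ) + 1) / N)⁻¹ = 1 / ((N : ℝ) + 1) := by
        field_simp
        ring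
      rw [h3] at h2
      calc (1 : ℝ) = ((N : ℝ) + 1) * (1 / ((N : ℝ) + 1)) := by field_simp
        _ ≤ _ := mul_le_mul_of_nonneg_left h2 (by positivity)
    linarith

/-- `x log x - x` between two numbers -/
lemma xlogx_le {a x : ℝ} (ha : 1 ≤ a) (hax : a ≤ x) (hx : x ≤ a + 1) :
    a * Real.log a - a ≤ x * Real.log x - x ∧
      x * Real.log x - x ≤ a * Real.log a - a + Real.log x := by
  have ha0 : 0 < a := by linarith
  have hx0 : 0 < x := by linarith
  have hla : 0 ≤ Real.log a := Real.log_nonneg ha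
  have hlx : 0 ≤ Real.log x := Real.log_nonneg (by linarith)
  have h1 : Real.log x - Real.log a ≤ x / a - 1 := by
    rw [← Real.log_div hx0.ne' ha0.ne']
    exact Real.log_le_sub_one_of_pos (by positivity)
  have h2 : 1 - a / x ≤ Real.log x - Real.log a := by
    rw [← Real.log_div hx0.ne' ha0.ne']
    have := Real.one_sub_inv_le_log_of_pos (show (0 : ℝ) < x / a by positivity)
    rwa [inv_div] at this
  constructor
  · have h3 : x * (1 - a / x) ≤ x * (Real.log x - Real.log a) :=
      mul_le_mul_of_nonneg_left h2 hx0.le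
    have h4 : x * (1 - a / x) = x - a := by field_simp
    nlinarith
  · have h3 : a * (Real.log x - Real.log a) ≤ a * (x / a - 1) :=
      mul_le_mul_of_nonneg_left h1 ha0.le
    have h4 : a * (x / a - 1) = x - a := by field_simp
    nlinarith

theorem asy_log : SumAsy (fun n => lg n) (Polynomial.X - 1) 21 := by
  have hlg : ∀ n : ℕ, lg n = Real.log n := fun n => rfl
  refine ⟨by simp, ⟨1, fun n => ?_⟩, fun x hx => ?_⟩
  · show |lg n| ≤ 1 * (n : ℝ) ^ 2
    rw [hlg]
    rcases Nat.eq_zero_or_pos n with h | h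
    · simp [h]
    · have h1 : (1 : ℝ) ≤ n := by exact_mod_cast h
      rw [abs_of_nonneg (Real.log_nonneg h1), one_mul]
      have h2 := Real.log_le_sub_one_of_pos (show (0 : ℝ) < n by linarith)
      nlinarith
  · show |∑ n ∈ Finset.Icc 1 ⌊x⌋₊, lg n -
      x * (Polynomial.X - 1 : Polynomial ℝ).eval (Real.log x)| ≤ _
    rw [Polynomial.eval_sub, Polynomial.eval_X, Polynomial.eval_one,
      Finset.sum_congr rfl fun n _ => hlg n, sum_log]
    rcases lt_or_ge x 1 with h | h
    · rw [floor_zero h]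
      have h1 := self_le_rpow hx h.le
      have h2 := self_mul_log hx h
      have h3 : Real.log x ≤ 0 := Real.log_nonpos hx.le h.le
      rw [abs_of_nonpos h3] at h2
      simp only [Nat.factorial_zero, Nat.cast_one, Real.log_one, zero_sub, abs_neg]
      rw [abs_of_nonpos (by nlinarith)]
      nlinarith
    · have hN1 : 1 ≤ ⌊x⌋₊ := Nat.one_le_floor_iff x |>.2 h
      have hN : (1 : ℝ) ≤ ⌊x⌋₊ := by exact_mod_cast hN1
      have hle := Nat.floor_le hx.le
      have hlt := Nat.lt_floor_add_one x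
      obtain ⟨h1, h2⟩ := xlogx_le hN hle hlt.le
      have h3 := log_factorial_ge hN1
      have h4 := log_factorial_le hN1
      have h5 : Real.log (⌊x⌋₊ : ℝ) ≤ Real.log x := Real.log_le_log (by linarith) hle
      have h6 := log_le_two_rpow h
      have h7 := one_le_rpow h
      rw [abs_le]
      constructor <;> nlinarith

/-! ### valuations -/

lemma sum_fact {p : ℕ} (N : ℕ) :
    ∑ n ∈ Finset.Icc 1 N, n.factorization p = (N.factorial).factorization p := by
  induction N with
  | zero => simp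
  | succ N ih =>
    rw [Finset.sum_Icc_succ_top (by omega), ih, Nat.factorial_succ,
      Nat.factorization_mul (by omega) (Nat.factorial_ne_zero N), Finsupp.add_apply]
    ring

lemma digits_sum_le {p : ℕ} (hp : 1 < p) {N : ℕ} :
    (p.digits N).sum ≤ (p - 1) * (p.digits N).length := by
  have h := List.sum_le_card_nsmul (p.digits N) (p - 1) fun d hd => by
    have := Nat.digits_lt_base hp hd
    omega
  rw [smul_eq_mul, mul_comm] at h
  exact h

/-- the bound for `x ≥ 1` -/
lemma fact_bound {p : ℕ} (hp : p.Prime) {N : ℕ} (hN : 1 ≤ N) {x : ℝ} (h1 : (N : ℝ) ≤ x)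
    (h2 : x < N + 1) : |((N.factorial).factorization p : ℝ) - x / ((p : ℝ) - 1)| ≤
      2 + Real.log x / Real.log 2 := by
  have hp2 : 2 ≤ p := hp.two_le
  have hp2' : (2 : ℝ) ≤ p := by exact_mod_cast hp2
  have hp1 : (1 : ℝ) ≤ (p : ℝ) - 1 := by linarith
  have : Fact p.Prime := ⟨hp⟩
  have hleg := sub_one_mul_padicValNat_factorial (p := p) N
  have hsum := Nat.digit_sum_le p N
  have hfac : padicValNat p N.factorial = (N.factorial).factorization p :=
    (Nat.factorization_def _ hp).symm
  rw [hfac] at hleg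
  set V := (N.factorial).factorization p with hV
  set s := (p.digits N).sum with hs
  have hlegR : ((p : ℝ) - 1) * V = N - s := by
    have h3 : (p - 1) * V + s = N := by omega
    have h4 : (((p - 1 : ℕ) : ℝ)) * V + s = N := by exact_mod_cast h3
    rw [Nat.cast_sub (by omega)] at h4
    push_cast at h4
    linarith
  -- the digit sum
  have hlen : (p.digits N).length = Nat.log p N + 1 := Nat.length_digits p N
    (by omega) (by omega)
  have hsle : (s : ℝ) ≤ ((p : ℝ) - 1) * (Real.log x / Real.log 2 + 1) := by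
    have h3 := digits_sum_le (p := p) (N := N) (by omega)
    rw [hlen] at h3
    have h4 : (s : ℝ) ≤ (((p - 1 : ℕ) : ℝ)) * ((Nat.log p N : ℝ) + 1) := by exact_mod_cast h3
    rw [Nat.cast_sub (by omega)] at h4
    push_cast at h4
    refine h4.trans (mul_le_mul_of_nonneg_left ?_ (by linarith))
    have h5 : (Nat.log p N : ℝ) ≤ Real.log x / Real.log 2 := by
      have hl2 : 0 < Real.log 2 := Real.log_pos (by norm_num)
      rw [le_div_iff₀ hl2]
      have h6 : p ^ Nat.log p N ≤ N := Nat.pow_log_le_self p (by omega)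
      have h7 : (2 : ℝ) ^ Nat.log p N ≤ x := by
        calc (2 : ℝ) ^ Nat.log p N ≤ (p : ℝ) ^ Nat.log p N :=
              pow_le_pow_left₀ (by norm_num) hp2' _
          _ ≤ N := by exact_mod_cast h6
          _ ≤ x := h1
      have h8 := Real.log_le_log (by positivity) h7
      rwa [Real.log_pow] at h8
    linarith
  have hs0 : (0 : ℝ) ≤ s := Nat.cast_nonneg s
  have hVe : (V : ℝ) = (N - s) / ((p : ℝ) - 1) := by
    rw [eq_div_iff (by linarith)]
    linarith
  have hdiff : (V : ℝ) - x / ((p : ℝ) - 1) = -((x - N + s) / ((p : ℝ) - 1)) := by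
    rw [hVe]
    ring
  rw [hdiff, abs_neg, abs_of_nonneg (div_nonneg (by linarith) (by linarith)),
    div_le_iff₀ (by linarith)]
  nlinarith

theorem asy_fact {p : ℕ} (hp : p.Prime) : SumAsy (fun n => (n.factorization p : ℝ))
    (Polynomial.C (1 / ((p : ℝ) - 1))) 21 := by
  have hp2' : (2 : ℝ) ≤ p := by exact_mod_cast hp.two_le
  refine ⟨by simp, ⟨1, fun n => ?_⟩, fun x hx => ?_⟩
  · show |(n.factorization p : ℝ)| ≤ 1 * (n : ℝ) ^ 2
    rw [abs_of_nonneg (Nat.cast_nonneg _), one_mul]
    rcases Nat.eq_zero_or_pos n with h | h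
    · simp [h]
    · have h1 : n.factorization p ≤ n := (Nat.factorization_lt p (by omega)).le
      have h2 : (n.factorization p : ℝ) ≤ n := by exact_mod_cast h1
      have h3 : (1 : ℝ) ≤ n := by exact_mod_cast h
      nlinarith
  · show |∑ n ∈ Finset.Icc 1 ⌊x⌋₊, (n.factorization p : ℝ) -
      x * (Polynomial.C (1 / ((p : ℝ) - 1))).eval (Real.log x)| ≤ _
    rw [Polynomial.eval_C, ← Nat.cast_sum, sum_fact]
    rcases lt_or_ge x 1 with h | h
    · rw [floor_zero h]
      have h1 := self_le_rpow hx h.le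
      simp only [Nat.factorial_zero, Nat.factorization_one, Finsupp.coe_zero, Pi.zero_apply,
        Nat.cast_zero, zero_sub, abs_neg]
      have h2 : x * (1 / ((p : ℝ) - 1)) ≤ x := by
        have h3 : 1 / ((p : ℝ) - 1) ≤ 1 := by
          rw [div_le_one (by linarith)]
          linarith
        nlinarith
      have h4 : 0 ≤ x * (1 / ((p : ℝ) - 1)) :=
        mul_nonneg hx.le (div_nonneg zero_le_one (by linarith))
      rw [abs_of_nonneg h4]
      linarith
    · have hN1 : 1 ≤ ⌊x⌋₊ := Nat.one_le_floor_iff x |>.2 h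
      have h1 := fact_bound hp hN1 (Nat.floor_le hx.le) (Nat.lt_floor_add_one x)
      have h2 : x * (1 / ((p : ℝ) - 1)) = x / ((p : ℝ) - 1) := by ring
      rw [h2]
      refine h1.trans ?_
      have h3 := one_le_rpow h
      have h4 := log_le_two_rpow h
      have hl2 : (1 : ℝ) / 2 < Real.log 2 := by linarith [Real.log_two_gt_d9]
      have h5 : Real.log x / Real.log 2 ≤ 4 * x ^ (19 / 20 : ℝ) := by
        rw [div_le_iff₀ (by linarith)]
        nlinarith
      linarith

end Asy

theorem asy : AsyStatement :=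
  ⟨21, Asy.asy_one, Asy.asy_log, fun _ hp => Asy.asy_fact hp⟩

end Pool.Agent.Lib.MP_6bc78b_nt.MS.L.H17
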