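import Mathlib
import Pool.Agent.Lib.MP_6bc78b_nt.MS.L.Iface

/-! Project MS (MP_6bc78b_nt), Part IIIa, module JN: the integrals `J_i`. -/

set_option autoImplicit false

open Filter Topology MeasureTheory

namespace Pool.Agent.Lib.MP_6bc78b_nt.MS.L.H17

namespace Jn

lemma GG_nonneg (T x : ℝ) : 0 ≤ GG T x := (Real.exp_pos _).le

lemma GG_le_one (T x : ℝ) : GG T x ≤ 1 := by
  unfold GG
  rw [Real.exp_le_one_iff]
  exact div_nonpos_of_nonpos_of_nonneg (by nlinarith [sq_nonneg (2 * Real.pi * x - T)])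
    (sq_nonneg _)

lemma DD_pos {T : ℝ} (hT : 1 < T) : 0 < DD T := by
  unfold DD
  have := Real.log_pos hT
  positivity

lemma GG_le {T : ℝ} (hT : 1 < T) (x : ℝ) :
    GG T x ≤ Real.exp (T ^ 2 / DD T ^ 2) *
      Real.exp (-(2 * Real.pi ^ 2 / DD T ^ 2) * x ^ 2) := by
  unfold GG
  rw [← Real.exp_add]
  apply Real.exp_le_exp.2
  have hD := DD_pos hT
  have e : T ^ 2 / DD T ^ 2 + -(2 * Real.pi ^ 2 / DD T ^ 2) * x ^ 2 =
      (T ^ 2 - 2 * Real.pi ^ 2 * x ^ 2) / DD T ^ 2 := by
    field_simp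
    ring
  rw [e]
  apply div_le_div_of_nonneg_right _ (by positivity)
  nlinarith [sq_nonneg (2 * Real.pi * x - 2 * T)]

lemma continuous_GG (T : ℝ) : Continuous (GG T) := by
  unfold GG
  fun_prop

lemma log_low {x : ℝ} (h0 : 0 < x) (h1 : x ≤ 1) (i : ℕ) :
    |Real.log x| ^ i ≤ 2 ^ i * (i.factorial : ℝ) * x ^ (-(1 / 2) : ℝ) := by
  have h := Real.pow_div_factorial_le_exp (|Real.log x| / 2) (by positivity) i
  have e : Real.exp (|Real.log x| / 2) = x ^ (-(1 / 2) : ℝ) := by
    rw [Real.rpow_def_of_pos h0, abs_of_nonpos (Real.log_nonpos h0.le h1)]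
    congr 1
    ring
  rw [e, div_le_iff₀ (by positivity), div_pow, div_le_iff₀ (by positivity)] at h
  linarith

lemma log_high {x : ℝ} (h1 : 1 ≤ x) (i : ℕ) :
    |Real.log x| ^ i ≤ (i.factorial : ℝ) * x := by
  have h := Real.pow_div_factorial_le_exp (|Real.log x|) (by positivity) i
  have e : Real.exp (|Real.log x|) = x := by
    rw [abs_of_nonneg (Real.log_nonneg h1), Real.exp_log (by linarith)]
  rw [e, div_le_iff₀ (by positivity)] at h
  linarith

lemma log_all {x : ℝ} (h0 : 0 < x) (i : ℕ) :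
    |Real.log x| ^ i ≤ 2 ^ i * (i.factorial : ℝ) * x ^ (-(1 / 2) : ℝ) +
      (i.factorial : ℝ) * x ^ (1 : ℝ) := by
  rw [Real.rpow_one]
  rcases le_total x 1 with h | h
  · have := log_low h0 h i
    have : 0 ≤ (i.factorial : ℝ) * x := by positivity
    linarith
  · have := log_high h i
    have : 0 ≤ 2 ^ i * (i.factorial : ℝ) * x ^ (-(1 / 2) : ℝ) := by positivity
    linarith

lemma meas_Fj (T : ℝ) (i : ℕ) : Measurable (Fj T i) := by
  unfold Fj
  exact (Real.measurable_log.pow_const i).mul (continuous_GG T).measurable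

lemma integrableOn_Fj (i : ℕ) (T : ℝ) (hT : 1 < T) : IntegrableOn (Fj T i) (Set.Ioi 0) := by
  have hD := DD_pos hT
  have hb : 0 < 2 * Real.pi ^ 2 / DD T ^ 2 := by positivity
  have h1 := (integrableOn_rpow_mul_exp_neg_mul_sq hb (s := (-(1 / 2) : ℝ)) (by norm_num)).const_mul
    (2 ^ i * (i.factorial : ℝ) * Real.exp (T ^ 2 / DD T ^ 2))
  have h2 := (integrableOn_rpow_mul_exp_neg_mul_sq hb (s := (1 : ℝ)) (by norm_num)).const_mul
    ((i.factorial : ℝ) * Real.exp (T ^ 2 / DD T ^ 2))
  refine Integrable.mono' (h1.add h2) (meas_Fj T i).aestronglyMeasurable ?_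
  refine (ae_restrict_iff' measurableSet_Ioi).2 (Eventually.of_forall fun x hx => ?_)
  have hx0 : 0 < x := hx
  have hl := log_all hx0 i
  have hG := GG_le hT x
  have e : ‖Fj T i x‖ = |Real.log x| ^ i * GG T x := by
    unfold Fj
    rw [norm_mul, norm_pow, Real.norm_eq_abs, Real.norm_eq_abs, abs_of_nonneg (GG_nonneg T x)]
  rw [e]
  refine (mul_le_mul hl hG (GG_nonneg T x) (by positivity)).trans (le_of_eq ?_)
  simp only [Pi.add_apply]
  ring

/-- The part `x ≤ 1` is bounded. -/
lemma low_bound (i : ℕ) : ∃ K : ℝ, ∀ T : ℝ, 1 < T → |∫ x in Set.Ioc (0 : ℝ) 1, Fj T i x| ≤ K := by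
  refine ⟨∫ x in Set.Ioc (0 : ℝ) 1, 2 ^ i * (i.factorial : ℝ) * x ^ (-(1 / 2) : ℝ),
    fun T hT => ?_⟩
  have hint : IntegrableOn (fun x : ℝ => 2 ^ i * (i.factorial : ℝ) * x ^ (-(1 / 2) : ℝ))
      (Set.Ioc (0 : ℝ) 1) := by
    have h := (intervalIntegral.intervalIntegrable_rpow' (a := (0 : ℝ)) (b := 1)
      (r := (-(1 / 2) : ℝ)) (by norm_num)).const_mul (2 ^ i * (i.factorial : ℝ))
    rwa [intervalIntegrable_iff_integrableOn_Ioc_of_le zero_le_one] at h
  rw [← Real.norm_eq_abs]
  refine norm_integral_le_of_norm_le hint ?_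
  refine (ae_restrict_iff' measurableSet_Ioc).2 (Eventually.of_forall fun x hx => ?_)
  have e : ‖Fj T i x‖ = |Real.log x| ^ i * GG T x := by
    unfold Fj
    rw [norm_mul, norm_pow, Real.norm_eq_abs, Real.norm_eq_abs, abs_of_nonneg (GG_nonneg T x)]
  rw [e]
  have h1 := log_low hx.1 hx.2 i
  have h2 := GG_le_one T x
  have h3 : 0 ≤ |Real.log x| ^ i := by positivity
  nlinarith

/-- The integrand after the substitution. -/
noncomputable def hh (i : ℕ) (T v : ℝ) : ℝ :=
  if 1 < (T + DD T * v) / (2 * Real.pi) then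
    (Real.log ((T + DD T * v) / (2 * Real.pi)) / Real.log T) ^ i * Real.exp (-v ^ 2) else 0

lemma subst (i : ℕ) {T : ℝ} (hT : 1 < T) :
    ∫ x in Set.Ioi (1 : ℝ), Fj T i x =
      DD T / (2 * Real.pi) * Real.log T ^ i * ∫ v : ℝ, hh i T v := by
  have hD := DD_pos hT
  have hL := Real.log_pos hT
  have hpi := Real.pi_pos
  have ha : 0 < DD T / (2 * Real.pi) := by positivity
  rw [← integral_indicator measurableSet_Ioi]
  set g : ℝ → ℝ := (Set.Ioi (1 : ℝ)).indicator (Fj T i) with hg
  have h1 : ∫ x : ℝ, g x = ∫ x : ℝ, g (x + T / (2 * Real.pi)) :=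
    (integral_add_right_eq_self g _).symm
  have h2 := Measure.integral_comp_mul_left (fun x : ℝ => g (x + T / (2 * Real.pi)))
    (DD T / (2 * Real.pi))
  rw [abs_of_pos (inv_pos.2 ha), smul_eq_mul] at h2
  have h3 : ∀ v : ℝ, g (DD T / (2 * Real.pi) * v + T / (2 * Real.pi)) =
      Real.log T ^ i * hh i T v := by
    intro v
    have e : DD T / (2 * Real.pi) * v + T / (2 * Real.pi) = (T + DD T * v) / (2 * Real.pi) := by
      field_simp
      ring
    rw [e, hg, hh, Set.indicator_apply]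
    simp only [Set.mem_Ioi]
    split_ifs with h
    · unfold Fj GG
      have e2 : -(2 * Real.pi * ((T + DD T * v) / (2 * Real.pi)) - T) ^ 2 / DD T ^ 2 =
          -v ^ 2 := by
        field_simp
        ring
      rw [e2, div_pow]
      field_simp
    · simp
  simp only [h3] at h2
  rw [integral_const_mul] at h2
  rw [h1]
  have : (DD T / (2 * Real.pi)) * (Real.log T ^ i * ∫ v : ℝ, hh i T v) =
      (DD T / (2 * Real.pi)) * ((DD T / (2 * Real.pi))⁻¹ *
        ∫ x : ℝ, g (x + T / (2 * Real.pi))) := by rw [h2]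
  rw [← mul_assoc (DD T / (2 * Real.pi)) (DD T / (2 * Real.pi))⁻¹, mul_inv_cancel₀ ha.ne',
    one_mul] at this
  rw [← this]
  ring

lemma hh_bound (i : ℕ) {T : ℝ} (hT : Real.exp 1 ≤ T) (v : ℝ) :
    ‖hh i T v‖ ≤ (i.factorial : ℝ) * Real.exp (3 / 2) * Real.exp (-(1 / 2) * v ^ 2) := by
  have hT1 : 1 < T := lt_of_lt_of_le (by simp) hT
  have hD := DD_pos hT1
  have hL : 1 ≤ Real.log T := by
    have := Real.log_le_log (Real.exp_pos 1) hT
    rwa [Real.log_exp] at this
  have hpi := Real.pi_gt_three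
  unfold hh
  split_ifs with h
  · have hDT : DD T ≤ T := by
      unfold DD
      exact div_le_self (by linarith) (Real.one_le_rpow hL (by norm_num))
    have h1 : (T + DD T * v) / (2 * Real.pi) ≤ T * (1 + |v|) := by
      rw [div_le_iff₀ (by positivity)]
      have h2 : DD T * v ≤ T * |v| := by
        have h3 : DD T * v ≤ DD T * |v| := mul_le_mul_of_nonneg_left (le_abs_self v) hD.le
        have h4 : DD T * |v| ≤ T * |v| := mul_le_mul_of_nonneg_right hDT (abs_nonneg v)
        linarith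
      have h5 : 0 ≤ T * (1 + |v|) := by positivity
      nlinarith
    have hl0 : 0 < Real.log ((T + DD T * v) / (2 * Real.pi)) := Real.log_pos h
    have hl1 : Real.log ((T + DD T * v) / (2 * Real.pi)) ≤ Real.log T + |v| := by
      refine (Real.log_le_log (by linarith) h1).trans ?_
      rw [Real.log_mul (by linarith) (by positivity)]
      have := Real.log_le_sub_one_of_pos (show 0 < 1 + |v| by positivity)
      linarith
    have hq : Real.log ((T + DD T * v) / (2 * Real.pi)) / Real.log T ≤ 1 + |v| := by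
      rw [div_le_iff₀ (by linarith)]
      nlinarith [abs_nonneg v]
    have hq0 : 0 ≤ Real.log ((T + DD T * v) / (2 * Real.pi)) / Real.log T :=
      div_nonneg hl0.le (by linarith)
    rw [norm_mul, norm_pow, Real.norm_eq_abs, Real.norm_eq_abs, abs_of_nonneg hq0,
      abs_of_pos (Real.exp_pos _)]
    have h6 : (Real.log ((T + DD T * v) / (2 * Real.pi)) / Real.log T) ^ i ≤
        (i.factorial : ℝ) * Real.exp (1 + |v|) := by
      refine (pow_le_pow_left₀ hq0 hq i).trans ?_
      have := Real.pow_div_factorial_le_exp (1 + |v|) (by positivity) i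
      rw [div_le_iff₀ (by positivity)] at this
      linarith
    refine (mul_le_mul_of_nonneg_right h6 (Real.exp_pos _).le).trans ?_
    rw [mul_assoc, mul_assoc, ← Real.exp_add, ← Real.exp_add]
    apply mul_le_mul_of_nonneg_left _ (by positivity)
    apply Real.exp_le_exp.2
    nlinarith [sq_nonneg (|v| - 1), sq_abs v]
  · rw [norm_zero]
    positivity

lemma tendsto_frac (v : ℝ) : Tendsto (fun T : ℝ => DD T / T * v) atTop (𝓝 0) := by
  have h1 : Tendsto (fun T : ℝ => Real.log T ^ (-(2 / 3) : ℝ)) atTop (𝓝 0) :=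
    (tendsto_rpow_neg_atTop (by norm_num : (0 : ℝ) < 2 / 3)).comp Real.tendsto_log_atTop
  have h2 : Tendsto (fun T : ℝ => Real.log T ^ (-(2 / 3) : ℝ) * v) atTop (𝓝 0) := by
    simpa using h1.mul_const v
  refine h2.congr' ?_
  filter_upwards [eventually_gt_atTop (1 : ℝ)] with T hT
  have hL := Real.log_pos hT
  unfold DD
  rw [Real.rpow_neg hL.le]
  field_simp

lemma hh_tendsto (i : ℕ) (v : ℝ) :
    Tendsto (fun T : ℝ => hh i T v) atTop (𝓝 (Real.exp (-v ^ 2))) := by
  have h0 := tendsto_frac v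
  have hlogT : Tendsto (fun T : ℝ => Real.log T) atTop atTop := Real.tendsto_log_atTop
  have h1 : Tendsto (fun T : ℝ => Real.log (1 + DD T / T * v) - Real.log (2 * Real.pi)) atTop
      (𝓝 (0 - Real.log (2 * Real.pi))) := by
    apply Tendsto.sub_const
    have h2 : Tendsto (fun T : ℝ => 1 + DD T / T * v) atTop (𝓝 1) := by
      simpa using h0.const_add 1
    have h3 := (Real.continuousAt_log one_ne_zero).tendsto.comp h2
    rw [Real.log_one] at h3
    exact h3
  have h4 : Tendsto (fun T : ℝ => (Real.log (1 + DD T / T * v) - Real.log (2 * Real.pi)) /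
      Real.log T) atTop (𝓝 0) := h1.div_atTop hlogT
  have h5 : Tendsto (fun T : ℝ => (1 + (Real.log (1 + DD T / T * v) - Real.log (2 * Real.pi)) /
      Real.log T) ^ i * Real.exp (-v ^ 2)) atTop (𝓝 (Real.exp (-v ^ 2))) := by
    have h6 : Tendsto (fun T : ℝ => (1 + (Real.log (1 + DD T / T * v) - Real.log (2 * Real.pi)) /
      Real.log T)) atTop (𝓝 1) := by simpa using h4.const_add 1
    simpa using (h6.pow i).mul_const (Real.exp (-v ^ 2))
  refine h5.congr' ?_
  have h7 : ∀ᶠ T : ℝ in atTop, -(1 / 2) < DD T / T * v :=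
    h0.eventually (lt_mem_nhds (by norm_num))
  filter_upwards [h7, eventually_gt_atTop (16 : ℝ)] with T hv hT
  have hL := Real.log_pos (show (1 : ℝ) < T by linarith)
  have hpi := Real.pi_pos
  have hpi4 := Real.pi_lt_four
  have hT0 : (0 : ℝ) < T := by linarith
  have e : (T + DD T * v) / (2 * Real.pi) = T * (1 + DD T / T * v) / (2 * Real.pi) := by
    field_simp
  have hcond : 1 < (T + DD T * v) / (2 * Real.pi) := by
    rw [e, lt_div_iff₀ (by positivity)]
    nlinarith
  unfold hh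
  rw [if_pos hcond, e, Real.log_div (by nlinarith) (by positivity),
    Real.log_mul hT0.ne' (by linarith)]
  congr 2
  field_simp
  ring

lemma hh_meas (i : ℕ) (T : ℝ) : Measurable (hh i T) := by
  unfold hh
  refine Measurable.ite ?_ ?_ measurable_const
  · exact measurableSet_lt measurable_const (by fun_prop)
  · fun_prop

lemma lim_hh (i : ℕ) : Tendsto (fun T : ℝ => ∫ v : ℝ, hh i T v) atTop (𝓝 (Real.sqrt Real.pi)) := by
  have e : ∫ v : ℝ, Real.exp (-v ^ 2) = Real.sqrt Real.pi := by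
    have := integral_gaussian 1
    simpa using this
  rw [← e]
  refine tendsto_integral_filter_of_dominated_convergence
    (fun v => (i.factorial : ℝ) * Real.exp (3 / 2) * Real.exp (-(1 / 2) * v ^ 2)) ?_ ?_ ?_ ?_
  · exact Eventually.of_forall fun T => (hh_meas i T).aestronglyMeasurable
  · filter_upwards [eventually_ge_atTop (Real.exp 1)] with T hT
    exact Eventually.of_forall fun v => hh_bound i hT v
  · exact (integrable_exp_neg_mul_sq (by norm_num : (0 : ℝ) < 1 / 2)).const_mul _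
  · exact Eventually.of_forall fun v => hh_tendsto i v

lemma tendsto_cG : Tendsto cG atTop atTop := by
  have h1 : Tendsto (fun T : ℝ => T / Real.log T) atTop atTop := by
    have h2 : Tendsto (fun T : ℝ => Real.log T / T) atTop (𝓝 0) := by
      have := Real.isLittleO_log_id_atTop.tendsto_div_nhds_zero
      simpa using this
    have h3 : Tendsto (fun T : ℝ => Real.log T / T) atTop (𝓝[>] 0) := by
      refine tendsto_nhdsWithin_iff.2 ⟨h2, ?_⟩
      filter_upwards [eventually_gt_atTop (1 : ℝ)] with T hT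
      exact div_pos (Real.log_pos hT) (by linarith)
    refine h3.inv_tendsto_nhdsGT_zero.congr fun T => ?_
    simp [Pi.inv_apply]
  have h4 : Tendsto (fun T : ℝ => T / Real.log T / (2 * Real.sqrt Real.pi)) atTop atTop :=
    h1.atTop_div_const (by positivity)
  refine tendsto_atTop_mono' atTop ?_ h4
  filter_upwards [eventually_ge_atTop (Real.exp 1)] with T hT
  have hT1 : 1 < T := lt_of_lt_of_le (by simp) hT
  have hL : 1 ≤ Real.log T := by
    have := Real.log_le_log (Real.exp_pos 1) hT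
    rwa [Real.log_exp] at this
  unfold cG DD
  apply div_le_div_of_nonneg_right _ (by positivity)
  apply div_le_div_of_nonneg_left (by linarith) (by positivity)
  calc Real.log T ^ (2 / 3 : ℝ) ≤ Real.log T ^ (1 : ℝ) :=
        Real.rpow_le_rpow_of_exponent_le hL (by norm_num)
    _ = Real.log T := Real.rpow_one _

end Jn

theorem jn : JnStatement := by
  refine ⟨Jn.integrableOn_Fj, fun i => ?_⟩
  obtain ⟨K, hK⟩ := Jn.low_bound i
  have hpi := Real.pi_pos
  have hs : 0 < Real.sqrt Real.pi := Real.sqrt_pos.2 hpi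
  have h1 : Tendsto (fun T : ℝ => (∫ x in Set.Ioc (0 : ℝ) 1, Fj T i x) /
      (cG T * Real.log T ^ i)) atTop (𝓝 0) := by
    have h2 : Tendsto (fun T : ℝ => K / cG T) atTop (𝓝 0) :=
      tendsto_const_nhds.div_atTop Jn.tendsto_cG
    refine squeeze_zero_norm' ?_ h2
    filter_upwards [eventually_ge_atTop (Real.exp 1), Jn.tendsto_cG.eventually_gt_atTop 0]
      with T hT hc
    have hT1 : 1 < T := lt_of_lt_of_le (by simp) hT
    have hL : 1 ≤ Real.log T := by
      have := Real.log_le_log (Real.exp_pos 1) hT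
      rwa [Real.log_exp] at this
    have hp : 1 ≤ Real.log T ^ i := one_le_pow₀ hL
    rw [norm_div, Real.norm_eq_abs, Real.norm_eq_abs,
      abs_of_pos (show 0 < cG T * Real.log T ^ i by positivity)]
    exact div_le_div₀ ((abs_nonneg _).trans (hK T hT1)) (hK T hT1) hc (by nlinarith)
  have h3 : Tendsto (fun T : ℝ => (Real.sqrt Real.pi)⁻¹ * ∫ v : ℝ, Jn.hh i T v) atTop (𝓝 1) := by
    have := (Jn.lim_hh i).const_mul (Real.sqrt Real.pi)⁻¹
    rwa [inv_mul_cancel₀ hs.ne'] at this
  have h4 := h1.add h3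
  rw [zero_add] at h4
  refine h4.congr' ?_
  filter_upwards [eventually_gt_atTop (1 : ℝ)] with T hT
  have hD := Jn.DD_pos hT
  have hL := Real.log_pos hT
  have hsplit : Jn T i = (∫ x in Set.Ioc (0 : ℝ) 1, Fj T i x) + ∫ x in Set.Ioi (1 : ℝ), Fj T i x := by
    unfold Jn
    have hI := Jn.integrableOn_Fj i T hT
    rw [← Set.Ioc_union_Ioi_eq_Ioi (zero_le_one' ℝ)]
    exact setIntegral_union (Set.Ioc_disjoint_Ioi le_rfl) measurableSet_Ioi
      (hI.mono_set Set.Ioc_subset_Ioi_self) (hI.mono_set (Set.Ioi_subset_Ioi zero_le_one))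
  rw [hsplit, add_div, Jn.subst i hT]
  congr 1
  unfold cG
  have hp2 : Real.sqrt Real.pi * Real.sqrt Real.pi = Real.pi := Real.mul_self_sqrt hpi.le
  have : DD T / (2 * Real.pi) * Real.log T ^ i =
      (DD T / (2 * Real.sqrt Real.pi) * Real.log T ^ i) * (Real.sqrt Real.pi)⁻¹ := by
    have e1 : (2 * Real.pi)⁻¹ = (2 * Real.sqrt Real.pi)⁻¹ * (Real.sqrt Real.pi)⁻¹ := by
      rw [← mul_inv, mul_assoc, hp2]
    rw [div_eq_mul_inv, div_eq_mul_inv, e1]
    ring
  rw [this]
  field_simp

end Pool.Agent.Lib.MP_6bc78b_nt.MS.L.H17
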